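import Pool.Agent.H10.DT.Fk

/-!
# Extensions by two free quotients

`f : G → P`, `P` is in the class, `K0`, `K1` are normal subgroups of `G` inside the kernel of `f`, the quotients of the kernel of
`f` by `K0` and `K1` are subgroups of free groups and the intersection of `K0` and `K1` is a free group. Then `G` is in the class.
-/

set_option autoImplicit false

namespace Pool.Agent.H52.DT

open Pool.Agent.H98.FJ Pool.Agent.H10.DT

variable {C : (G : Type) → [Group G] → Prop}

/-- the two members of a family over `Bool` -/
def PF (A B : Type) : Bool → Type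
  | true => A
  | false => B

instance (A B : Type) [Group A] [Group B] : (b : Bool) → Group (PF A B b)
  | true => inferInstanceAs (Group A)
  | false => inferInstanceAs (Group B)

/-- a product as a product over `Bool` -/
def toPF (A B : Type) [Group A] [Group B] : A × B →* (∀ b, PF A B b) where
  toFun x b := match b with
    | true => x.1
    | false => x.2
  map_one' := by
    funext b
    cases b <;> rfl
  map_mul' x y := by
    funext b
    cases b <;> rfl

/-- the product of two groups in the class -/
theorem mem_prod (hC : Inherits C) {A B : Type} [Group A] [Group B] (hA : C A) (hB : C B) : C (A × B) := by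
  have h1 : C (∀ b, PF A B b) := by
    refine hC.pi Bool inferInstance (PF A B) ?_
    intro b
    cases b
    · exact hB
    · exact hA
  refine hC.of_injective (toPF A B) ?_ h1
  intro x y h
  exact Prod.ext (congrFun h true) (congrFun h false)

/-- the quotient by one of the subgroups -/
theorem clo_quot (hC : Inherits C) (hE : Extension C) (hF : FreeByZ C) {G P : Type} [Group G] [Group P] (f : G →* P)
    (hP : C P) (K : Subgroup G) [K.Normal] (hK : K ≤ f.ker) {A : Type} (F : f.ker →* FreeGroup A)
    (e : F.ker = K.subgroupOf f.ker) : C (G ⧸ K) := by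
  let g : G ⧸ K →* P := QuotientGroup.lift K f fun x hx => hK hx
  have hg : ∀ x : G, g (x : G ⧸ K) = f x := fun x => QuotientGroup.lift_mk' K _ x
  refine fk hC hE hF _ P g hP ?_
  let u : f.ker →* g.ker :=
    { toFun := fun x => ⟨((x : G) : G ⧸ K), by
        rw [MonoidHom.mem_ker, hg]
        exact x.2⟩
      map_one' := rfl
      map_mul' := fun _ _ => rfl }
  have hu : Function.Surjective u := by
    rintro ⟨y, hy⟩
    obtain ⟨x, rfl⟩ := QuotientGroup.mk_surjective y
    refine ⟨⟨x, ?_⟩, rfl⟩
    rw [MonoidHom.mem_ker] at hy ⊢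
    rw [← hg]
    exact hy
  have hk : F.ker = u.ker := by
    rw [e]
    ext x
    rw [Subgroup.mem_subgroupOf, MonoidHom.mem_ker]
    constructor
    · intro hx
      exact Subtype.ext ((QuotientGroup.eq_one_iff _).2 hx)
    · intro hx
      exact (QuotientGroup.eq_one_iff _).1 (congrArg Subtype.val hx)
  have h1 : IsFreeGroup (f.ker ⧸ F.ker) :=
    free_of_injective (QuotientGroup.kerLift F) (QuotientGroup.kerLift_injective F) inferInstance
  exact IsFreeGroup.ofMulEquiv ((QuotientGroup.quotientMulEquivOfEq hk).trans
    (QuotientGroup.quotientKerEquivOfSurjective u hu))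

/-- the closure step -/
theorem clo (hC : Inherits C) (hE : Extension C) (hF : FreeByZ C) {G P : Type} [Group G] [Group P] (f : G →* P)
    (hP : C P) (K0 K1 : Subgroup G) [K0.Normal] [K1.Normal] (h0 : K0 ≤ f.ker) (h1 : K1 ≤ f.ker) {A0 A1 : Type}
    (F0 : f.ker →* FreeGroup A0) (e0 : F0.ker = K0.subgroupOf f.ker)
    (F1 : f.ker →* FreeGroup A1) (e1 : F1.ker = K1.subgroupOf f.ker)
    (h : IsFreeGroup (K0 ⊓ K1 : Subgroup G)) : C G := by
  have hQ : C ((G ⧸ K0) × (G ⧸ K1)) :=
    mem_prod hC (clo_quot hC hE hF f hP K0 h0 F0 e0) (clo_quot hC hE hF f hP K1 h1 F1 e1)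
  refine fk hC hE hF G _ ((QuotientGroup.mk' K0).prod (QuotientGroup.mk' K1)) hQ ?_
  rw [MonoidHom.ker_prod, QuotientGroup.ker_mk', QuotientGroup.ker_mk']
  exact h

end Pool.Agent.H52.DT
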