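import Pool.Agent.H52.DT.RemB
import Pool.Agent.H10.BT.Fin

/-!
# The theorem for finite and affine types without the types affine `B` and affine `D`
-/

set_option autoImplicit false

namespace Pool.Agent.H52.DT

open Pool.Agent.H52.PAG Pool.Agent.H98.FJ Pool.Agent.H54.CX Pool.Agent.H10.DT Pool.Agent.H98.DT Pool.Agent.H10.BT
open Pool.Agent.H54.AR (rst rst_apply)

theorem aff_mem2 {C : (G : Type) → [Group G] → Prop} (hC : Inherits C) (hE : Extension C) (hF : FreeByZ C)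
    (hcat : Cat2 C) (hGL : ∀ n : ℕ, C (GL (Fin n) ℤ)) (B : Type) (M : CoxeterMatrix B)
    (hM : ∀ K : Finset B, (∀ i ∈ K, ∀ j ∈ K, M i j ≠ 0) →
      (∀ L ⊆ K, L.Nonempty → L ≠ K → ∃ i ∈ L, ∃ j ∈ K, j ∉ L ∧ M i j ≠ 2) →
      C (Art (rst M K)) ∨ ∀ T ⊆ K, 3 ≤ T.card →
        (∀ L ⊆ T, L.Nonempty → L ≠ T → ∃ i ∈ L, ∃ j ∈ T, j ∉ L ∧ M i j ≠ 2) →
        (∀ i ∈ T, ∀ j ∈ T, ∀ k ∈ T, i ≠ j → j ≠ k → i ≠ k → (1 : ℝ) < 1 / M i j + 1 / M j k + 1 / M i k) →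
        (∀ x : B → ℝ, 0 ≤ ∑ i ∈ T, ∑ j ∈ T, x i * x j * -Real.cos (Real.pi / M i j)) ∧
          (C (Art (rst M T)) ∨ IsDt M T ∨ IsBt M T)) : C (Art M) :=
  aff_mem_rem hC hE hcat hGL B M (fun T => IsDt M T ∨ IsBt M T) (fun T hT ih => by
    rcases hT with h | h
    · exact rem_dt hC hE hF M T h ih
    · exact rem_bt hC (fun m => art_cmBt_mem hC hE hF m) M T h ih) hM

end Pool.Agent.H52.DT
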