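import Pool.Agent.H52.DT.Cla
import Pool.Agent.H52.CA.Fin
import Pool.Agent.H98.BR.Rl
import Pool.Agent.H10.CA.Aty
import Pool.Agent.H54.AR.Fin

/-!
# The Artin groups of the classical diagrams are in the class
-/

set_option autoImplicit false

namespace Pool.Agent.H52.DT

open Pool.Agent.H52.PAG Pool.Agent.H98.FJ Pool.Agent.H10.DT Pool.Agent.H10.BT Pool.Agent.H98.BR
open Pool.Agent.H98.DT (pl cmD cmD_apply lD cmT cmT_apply lT)
open Pool.Agent.H52.CA (cmCt lC cmCt_apply art_cmCt_mem)
open Pool.Agent.H10.CA (cmAt lA art_cmAt_mem)
open Pool.Agent.H54.AR (rst rst_apply)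

variable {C : (G : Type) → [Group G] → Prop}

theorem cl_of (hC : Inherits C) {B I : Type} (M : CoxeterMatrix B) (T : Finset B) (N : CoxeterMatrix I) {n : ℕ}
    (e : Fin n ≃ T) (g : Fin n ≃ I) (h : ∀ i j, i < j → M (e i) (e j) = N (g i) (g j)) (hN : C (Art N)) :
    C (Art (rst M T)) := by
  refine art_mem_congr hC (rst M T) N (e.symm.trans g) (fun x y => ?_) hN
  obtain ⟨i, rfl⟩ := e.surjective x
  obtain ⟨j, rfl⟩ := e.surjective y
  simp only [Equiv.trans_apply, Equiv.symm_apply_apply]
  rw [rst_apply]
  rcases lt_trichotomy i j with h1 | h1 | h1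
  · exact (h i j h1).symm
  · rw [h1, M.diagonal, N.diagonal]
  · rw [M.symmetric, N.symmetric]
    exact (h j i h1).symm

theorem cl_mem (hC : Inherits C) (hE : Extension C) (hF : FreeByZ C)
    {B : Type} (M : CoxeterMatrix B) (T : Finset B) (h : IsCl M T) : C (Art (rst M T)) := by
  obtain ⟨c, n, e, hn, hlab⟩ := h
  cases c with
  | A =>
    refine cl_of hC M T (cmP n) e (Equiv.refl _) (fun i j hij => ?_) (an_mem hC hE hF n)
    have hij' : i.val < j.val := hij
    rw [hlab i j hij]
    change (if i.val + 1 = j.val then 3 else 2) = pl i.val j.val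
    simp only [pl]
    split_ifs <;> omega
  | B =>
    obtain ⟨m, rfl⟩ : ∃ m, n = m + 3 := ⟨n - 3, by simp only [Cl.low] at hn; omega⟩
    refine cl_of hC M T (cmBf m) e (Equiv.refl _) (fun i j hij => ?_) (bf_mem hC hE hF m)
    have hij' : i.val < j.val := hij
    rw [hlab i j hij]
    change (if i.val + 1 = j.val then (if i.val = 0 then 4 else 3) else 2) = H10.BT.lB i.val j.val
    simp only [H10.BT.lB]
    split_ifs <;> omega
  | D =>
    obtain ⟨m, rfl⟩ : ∃ m, n = m + 4 := ⟨n - 4, by simp only [Cl.low] at hn; omega⟩
    refine cl_of hC M T (cmD m (m + 1)) e finSuccEquivLast (fun i j hij => ?_) (dn_mem' m hC hE hF)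
    have hij' : i.val < j.val := hij
    rw [hlab i j hij, cmD_apply]
    have hi : i.val < m + 3 := by omega
    have ei : i = Fin.castSucc ⟨i.val, hi⟩ := rfl
    have gi : (finSuccEquivLast i : Option (Fin (m + 3))) = some ⟨i.val, hi⟩ := by
      conv_lhs => rw [ei]
      exact finSuccEquivLast_castSucc _
    rw [gi]
    by_cases hj : j.val = m + 3
    · have ej : j = Fin.last (m + 3) := Fin.ext hj
      have gj : (finSuccEquivLast j : Option (Fin (m + 3))) = none := by
        rw [ej]
        exact finSuccEquivLast_last
      rw [gj]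
      change (if j.val + 1 = m + 4 then (if i.val + 3 = m + 4 then 3 else 2) else if i.val + 1 = j.val then 3 else 2) =
        (if i.val = m + 1 then 3 else 2)
      rw [if_pos (by omega)]
      split_ifs <;> omega
    · have hj' : j.val < m + 3 := by omega
      have ej : j = Fin.castSucc ⟨j.val, hj'⟩ := rfl
      have gj : (finSuccEquivLast j : Option (Fin (m + 3))) = some ⟨j.val, hj'⟩ := by
        conv_lhs => rw [ej]
        exact finSuccEquivLast_castSucc _
      rw [gj]
      change (if j.val + 1 = m + 4 then (if i.val + 3 = m + 4 then 3 else 2) else if i.val + 1 = j.val then 3 else 2) =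
        pl i.val j.val
      rw [if_neg (by omega)]
      simp only [pl]
      split_ifs <;> omega
  | tA =>
    obtain ⟨m, rfl⟩ : ∃ m, n = m + 4 := ⟨n - 4, by simp only [Cl.low] at hn; omega⟩
    refine cl_of hC M T (cmAt (m + 1)) e (Equiv.refl _) (fun i j hij => ?_)
      (art_cmAt_mem hC (m + 1) (bf_mem hC hE hF (m + 1)))
    have hij' : i.val < j.val := hij
    rw [hlab i j hij]
    change (if i.val + 1 = j.val ∨ (i.val = 0 ∧ j.val + 1 = m + 4) then 3 else 2) = lA (m + 1) i.val j.val
    simp only [lA]
    split_ifs <;> omega
  | tB =>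
    obtain ⟨m, rfl⟩ : ∃ m, n = m + 4 := ⟨n - 4, by simp only [Cl.low] at hn; omega⟩
    refine cl_of hC M T (cmBt m) e finSuccEquivLast (fun i j hij => ?_) (bt_mem hC hE hF m)
    have hij' : i.val < j.val := hij
    rw [hlab i j hij, cmBt_apply]
    have hi : i.val < m + 3 := by omega
    have ei : i = Fin.castSucc ⟨i.val, hi⟩ := rfl
    have gi : (finSuccEquivLast i : Option (Fin (m + 3))) = some ⟨i.val, hi⟩ := by
      conv_lhs => rw [ei]
      exact finSuccEquivLast_castSucc _
    rw [gi]
    by_cases hj : j.val = m + 3
    · have ej : j = Fin.last (m + 3) := Fin.ext hj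
      have gj : (finSuccEquivLast j : Option (Fin (m + 3))) = none := by
        rw [ej]
        exact finSuccEquivLast_last
      rw [gj]
      change (if j.val + 1 = m + 4 then (if i.val + 3 = m + 4 then 3 else 2) else
        if i.val + 1 = j.val then (if i.val = 0 then 4 else 3) else 2) = (if i.val = m + 1 then 3 else 2)
      rw [if_pos (by omega)]
      split_ifs <;> omega
    · have hj' : j.val < m + 3 := by omega
      have ej : j = Fin.castSucc ⟨j.val, hj'⟩ := rfl
      have gj : (finSuccEquivLast j : Option (Fin (m + 3))) = some ⟨j.val, hj'⟩ := by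
        conv_lhs => rw [ej]
        exact finSuccEquivLast_castSucc _
      rw [gj]
      change (if j.val + 1 = m + 4 then (if i.val + 3 = m + 4 then 3 else 2) else
        if i.val + 1 = j.val then (if i.val = 0 then 4 else 3) else 2) = H10.BT.lB i.val j.val
      rw [if_neg (by omega)]
      simp only [H10.BT.lB]
      split_ifs <;> omega
  | tC =>
    obtain ⟨m, rfl⟩ : ∃ m, n = m + 4 := ⟨n - 4, by simp only [Cl.low] at hn; omega⟩
    refine cl_of hC M T (cmCt m) e (Equiv.refl _) (fun i j hij => ?_) (art_cmCt_mem hC hE hF m (bf_mem hC hE hF m))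
    have hij' : i.val < j.val := hij
    rw [hlab i j hij]
    change (if i.val + 1 = j.val then (if i.val = 0 ∨ j.val + 1 = m + 4 then 4 else 3) else 2) = lC m i.val j.val
    simp only [lC]
    split_ifs <;> omega
  | tD =>
    obtain ⟨m, rfl⟩ : ∃ m, n = m + 5 := ⟨n - 5, by simp only [Cl.low] at hn; omega⟩
    let g : Fin (m + 5) ≃ Option (Option (Fin (m + 3))) :=
      (finSuccEquivLast (n := m + 4)).trans (Equiv.optionCongr (finSuccEquivLast (n := m + 3)))
    have g0 : g (Fin.last (m + 4)) = none := by
      change Option.map _ (finSuccEquivLast (Fin.last (m + 4))) = none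
      rw [finSuccEquivLast_last]
      rfl
    have g1 : g (Fin.castSucc (Fin.last (m + 3))) = some none := by
      change Option.map _ (finSuccEquivLast (Fin.castSucc (Fin.last (m + 3)))) = some none
      rw [finSuccEquivLast_castSucc, Option.map_some]
      exact congrArg some finSuccEquivLast_last
    have g2 : ∀ k : Fin (m + 3), g (Fin.castSucc (Fin.castSucc k)) = some (some k) := by
      intro k
      change Option.map _ (finSuccEquivLast (Fin.castSucc (Fin.castSucc k))) = some (some k)
      rw [finSuccEquivLast_castSucc, Option.map_some]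
      exact congrArg some (finSuccEquivLast_castSucc k)
    refine cl_of hC M T (cmT m) e g (fun i j hij => ?_) (dt_mem hC hE hF m)
    have hij' : i.val < j.val := hij
    rw [hlab i j hij, cmT_apply]
    by_cases hj : j.val = m + 4
    · have ej : j = Fin.last (m + 4) := Fin.ext hj
      have gj : g j = none := by
        rw [ej]
        exact g0
      rw [gj]
      by_cases hi : i.val = m + 3
      · have ei : i = Fin.castSucc (Fin.last (m + 3)) := Fin.ext hi
        have gi : g i = some none := by
          rw [ei]
          exact g1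
        rw [gi]
        change (if j.val + 1 = m + 5 then (if i.val + 4 = m + 5 then 3 else 2) else if j.val + 2 = m + 5 then
          (if i.val = 1 then 3 else 2) else if i.val + 1 = j.val then 3 else 2) = 2
        rw [if_pos (by omega), if_neg (by omega)]
      · have hi' : i.val < m + 3 := by omega
        have ei : i = Fin.castSucc (Fin.castSucc ⟨i.val, hi'⟩) := rfl
        have gi : g i = some (some ⟨i.val, hi'⟩) := by
          conv_lhs => rw [ei]
          exact g2 _
        rw [gi]
        change (if j.val + 1 = m + 5 then (if i.val + 4 = m + 5 then 3 else 2) else if j.val + 2 = m + 5 then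
          (if i.val = 1 then 3 else 2) else if i.val + 1 = j.val then 3 else 2) = (if i.val = m + 1 then 3 else 2)
        rw [if_pos (by omega)]
        split_ifs <;> omega
    · have hi' : i.val < m + 3 := by omega
      have ei : i = Fin.castSucc (Fin.castSucc ⟨i.val, hi'⟩) := rfl
      have gi : g i = some (some ⟨i.val, hi'⟩) := by
        conv_lhs => rw [ei]
        exact g2 _
      rw [gi]
      by_cases hj2 : j.val = m + 3
      · have ej : j = Fin.castSucc (Fin.last (m + 3)) := Fin.ext hj2
        have gj : g j = some none := by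
          rw [ej]
          exact g1
        rw [gj]
        change (if j.val + 1 = m + 5 then (if i.val + 4 = m + 5 then 3 else 2) else if j.val + 2 = m + 5 then
          (if i.val = 1 then 3 else 2) else if i.val + 1 = j.val then 3 else 2) = (if i.val = 1 then 3 else 2)
        rw [if_neg (by omega), if_pos (by omega)]
      · have hj' : j.val < m + 3 := by omega
        have ej : j = Fin.castSucc (Fin.castSucc ⟨j.val, hj'⟩) := rfl
        have gj : g j = some (some ⟨j.val, hj'⟩) := by
          conv_lhs => rw [ej]
          exact g2 _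
        rw [gj]
        change (if j.val + 1 = m + 5 then (if i.val + 4 = m + 5 then 3 else 2) else if j.val + 2 = m + 5 then
          (if i.val = 1 then 3 else 2) else if i.val + 1 = j.val then 3 else 2) = pl i.val j.val
        rw [if_neg (by omega), if_neg (by omega)]
        simp only [pl]
        split_ifs <;> omega

end Pool.Agent.H52.DT
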