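import Pool.Agent.H52.PAG.Defs

/-!
# The classical diagrams

The classical diagrams of finite and affine type with at least three vertices, as label functions: `lab c n i j` is the label of
the vertices `i < j` of the diagram of family `c` with `n` vertices `0, …, n - 1`; `IsCl M T` says that the set `T` of generators
of `M` is one of these diagrams.
-/

set_option autoImplicit false

namespace Pool.Agent.H52.DT

/-- the seven families: `A_n`, `B_n`, `D_n`, affine `A_n`, affine `B_n`, affine `C_n`, affine `D_n` -/
inductive Cl : Type
  | A | B | D | tA | tB | tC | tD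

/-- the number of vertices is at least -/
def Cl.low : Cl → ℕ
  | .A => 3
  | .B => 3
  | .D => 4
  | .tA => 4
  | .tB => 4
  | .tC => 4
  | .tD => 5

/-- The label of the vertices `i < j` of the diagram with `n` vertices. `A`: a path; `B`: a path whose first label is `4`;
`D`: the path `0, …, n - 2` and the vertex `n - 1` joined with `n - 3`; `tA`: a circuit; `tB`: as `D`, the first label is `4`;
`tC`: a path whose first and last labels are `4`; `tD`: the path `0, …, n - 3`, the vertex `n - 2` joined with `1` and the
vertex `n - 1` joined with `n - 4`. All other labels of joined vertices are `3`. -/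
def Cl.lab : Cl → ℕ → ℕ → ℕ → ℕ
  | .A, _, i, j => if i + 1 = j then 3 else 2
  | .B, _, i, j => if i + 1 = j then (if i = 0 then 4 else 3) else 2
  | .D, n, i, j => if j + 1 = n then (if i + 3 = n then 3 else 2) else if i + 1 = j then 3 else 2
  | .tA, n, i, j => if i + 1 = j ∨ (i = 0 ∧ j + 1 = n) then 3 else 2
  | .tB, n, i, j =>
    if j + 1 = n then (if i + 3 = n then 3 else 2) else if i + 1 = j then (if i = 0 then 4 else 3) else 2
  | .tC, n, i, j => if i + 1 = j then (if i = 0 ∨ j + 1 = n then 4 else 3) else 2
  | .tD, n, i, j =>
    if j + 1 = n then (if i + 4 = n then 3 else 2) else if j + 2 = n then (if i = 1 then 3 else 2)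
    else if i + 1 = j then 3 else 2

/-- the set `T` of generators is a classical diagram -/
def IsCl {B : Type} (M : CoxeterMatrix B) (T : Finset B) : Prop :=
  ∃ (c : Cl) (n : ℕ) (e : Fin n ≃ T), c.low ≤ n ∧ ∀ i j : Fin n, i < j → M (e i) (e j) = c.lab n i j

end Pool.Agent.H52.DT
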