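import Pool.Agent.H52.PAG.Defs
import Pool.Agent.H98.FJ.Closed

/-!
# Artin groups: change of the names of the generators
-/

set_option autoImplicit false

namespace Pool.Agent.H52.DT

open Pool.Agent.H52.PAG Pool.Agent.H98.FJ

/-- the homomorphism which is induced by a map of the generators which preserves the labels -/
def artMap {B B' : Type*} (M : CoxeterMatrix B) (M' : CoxeterMatrix B') (e : B → B')
    (h : ∀ x y, M' (e x) (e y) = M x y) : Art M →* Art M' :=
  lift (fun x => gen M' (e x)) fun x y hxy => by
    rw [← h x y]
    exact gen_rel (by rwa [h])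

theorem artMap_gen {B B' : Type*} (M : CoxeterMatrix B) (M' : CoxeterMatrix B') (e : B → B')
    (h : ∀ x y, M' (e x) (e y) = M x y) (x : B) : artMap M M' e h (gen M x) = gen M' (e x) := lift_gen _ _ _

/-- the isomorphism which is induced by a bijection of the generators which preserves the labels -/
def artCongr {B B' : Type*} (M : CoxeterMatrix B) (M' : CoxeterMatrix B') (e : B ≃ B')
    (h : ∀ x y, M' (e x) (e y) = M x y) : Art M ≃* Art M' :=
  MonoidHom.toMulEquiv (artMap M M' e h)
    (artMap M' M e.symm fun x y => by rw [← h, e.apply_symm_apply, e.apply_symm_apply])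
    (art_ext fun x => by
      rw [MonoidHom.comp_apply, artMap_gen, artMap_gen, e.symm_apply_apply, MonoidHom.id_apply])
    (art_ext fun x => by
      rw [MonoidHom.comp_apply, artMap_gen, artMap_gen, e.apply_symm_apply, MonoidHom.id_apply])

theorem artCongr_gen {B B' : Type*} (M : CoxeterMatrix B) (M' : CoxeterMatrix B') (e : B ≃ B')
    (h : ∀ x y, M' (e x) (e y) = M x y) (x : B) : artCongr M M' e h (gen M x) = gen M' (e x) :=
  artMap_gen M M' e h x

theorem art_congr {B B' : Type*} (M : CoxeterMatrix B) (M' : CoxeterMatrix B') (e : B ≃ B')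
    (h : ∀ x y, M' (e x) (e y) = M x y) : Nonempty (Art M ≃* Art M') :=
  ⟨artCongr M M' e h⟩

/-- membership in a class does not depend on the names of the generators -/
theorem art_mem_congr {C : (G : Type) → [Group G] → Prop} (hC : Inherits C) {B B' : Type} (M : CoxeterMatrix B)
    (M' : CoxeterMatrix B') (e : B ≃ B') (h : ∀ x y, M' (e x) (e y) = M x y) (hM : C (Art M')) : C (Art M) :=
  hC.iso _ _ (artCongr M M' e h).symm hM

end Pool.Agent.H52.DT
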