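import Pool.Agent.H54.AP.End
import Pool.Agent.H98.DT.Cl
import Pool.Agent.H52.DT.Rel

/-!
# Removing types from the condition of the theorem for finite and affine types
-/

set_option autoImplicit false

namespace Pool.Agent.H52.DT

open Pool.Agent.H52.PAG Pool.Agent.H98.FJ Pool.Agent.H54.CX Pool.Agent.H10.DT Pool.Agent.H98.DT
open Pool.Agent.H54.AR (rst rst_apply)

variable {C : (G : Type) → [Group G] → Prop}

/-- irreducible sets of generators -/
def IrrF {B : Type} (M : CoxeterMatrix B) (T : Finset B) : Prop :=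
  ∀ L ⊆ T, L.Nonempty → L ≠ T → ∃ i ∈ L, ∃ j ∈ T, j ∉ L ∧ M i j ≠ 2

/-- sets of generators whose triples are spherical -/
def SphF {B : Type} (M : CoxeterMatrix B) (T : Finset B) : Prop :=
  ∀ i ∈ T, ∀ j ∈ T, ∀ k ∈ T, i ≠ j → j ≠ k → i ≠ k → (1 : ℝ) < 1 / M i j + 1 / M j k + 1 / M i k

/-- the form is positive semidefinite -/
def PsdF {B : Type} (M : CoxeterMatrix B) (T : Finset B) : Prop :=
  ∀ x : B → ℝ, 0 ≤ ∑ i ∈ T, ∑ j ∈ T, x i * x j * -Real.cos (Real.pi / M i j)

theorem aff_mem_rem (hC : Inherits C) (hE : Extension C) (hcat : Cat2 C) (hGL : ∀ n : ℕ, C (GL (Fin n) ℤ))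
    (B : Type) (M : CoxeterMatrix B) (Rem : Finset B → Prop)
    (hrem : ∀ T, Rem T → (∀ T' ⊂ T, 3 ≤ T'.card → IrrF M T' → C (Art (rst M T'))) → C (Art (rst M T)))
    (hM : ∀ K : Finset B, (∀ i ∈ K, ∀ j ∈ K, M i j ≠ 0) → IrrF M K →
      C (Art (rst M K)) ∨ ∀ T ⊆ K, 3 ≤ T.card → IrrF M T → SphF M T →
        PsdF M T ∧ (C (Art (rst M T)) ∨ Rem T)) : C (Art M) := by
  refine Pool.Agent.H54.AP.aff_mem hC hE hcat hGL B M fun K hK hirr => ?_
  rcases hM K hK hirr with h | h
  · exact Or.inl h
  refine Or.inr fun T hT h3 hI ht => ⟨(h T hT h3 hI ht).1, ?_⟩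
  induction T using Finset.strongInduction with
  | H T ih =>
    rcases (h T hT h3 hI ht).2 with h1 | h1
    · exact h1
    · refine hrem T h1 fun T' hT' h3' hI' => ?_
      refine ih T' hT' (hT'.1.trans hT) h3' hI' ?_
      intro i hi j hj k hk
      exact ht i (hT'.1 hi) j (hT'.1 hj) k (hT'.1 hk)

/-- the part of a set which is the image of a map from an index type -/
theorem mem_part (hC : Inherits C) {B : Type} (M : CoxeterMatrix B) (T : Finset B) {I : Type} [Finite I] (N : CoxeterMatrix I)
    (f : I → T) (hf : Function.Injective f) (hns : ∃ x : T, ∀ i, f i ≠ x) (hlab : ∀ i j, M (f i) (f j) = N i j)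
    (hcard : 3 ≤ Nat.card I) (hirr : ∀ P : I → Prop, (∀ i j, N i j ≠ 2 → (P i → P j)) → (∃ i, P i) → ∀ i, P i)
    (ih : ∀ T' ⊂ T, 3 ≤ T'.card → IrrF M T' → C (Art (rst M T'))) : C (Art N) := by
  classical
  have : Fintype I := Fintype.ofFinite I
  let g : I → B := fun i => (f i : B)
  have hg : Function.Injective g := fun i j h => hf (Subtype.ext h)
  let T' : Finset B := Finset.univ.image g
  have hmem : ∀ i, g i ∈ T' := fun i => Finset.mem_image_of_mem g (Finset.mem_univ i)
  have hT' : ∀ x ∈ T', ∃ i, g i = x := fun x hx => by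
    obtain ⟨i, _, hi⟩ := Finset.mem_image.1 hx
    exact ⟨i, hi⟩
  have hsub : T' ⊂ T := by
    refine Finset.ssubset_iff_subset_ne.2 ⟨fun x hx => ?_, fun h => ?_⟩
    · obtain ⟨i, rfl⟩ := hT' x hx
      exact (f i).2
    · obtain ⟨x, hx⟩ := hns
      have h1 : (x : B) ∈ T' := by
        rw [h]
        exact x.2
      obtain ⟨i, hi⟩ := hT' x h1
      exact hx i (Subtype.ext hi)
  have hc : 3 ≤ T'.card := by
    rw [Finset.card_image_of_injective _ hg, Finset.card_univ, ← Nat.card_eq_fintype_card]
    exact hcard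
  have hI : IrrF M T' := by
    intro L hL hne hLT
    by_contra hcon
    push Not at hcon
    apply hLT
    refine Finset.Subset.antisymm hL fun x hx => ?_
    obtain ⟨i, rfl⟩ := hT' x hx
    refine hirr (fun i => g i ∈ L) (fun i j hij hi => ?_) ?_ i
    · by_contra hj
      exact hij ((hlab i j).symm.trans (hcon (g i) hi (g j) (hmem j) hj))
    · obtain ⟨y, hy⟩ := hne
      obtain ⟨k, hk⟩ := hT' y (hL hy)
      exact ⟨k, by rw [hk]; exact hy⟩
  have h1 := ih T' hsub hc hI
  let e : I ≃ T' := Equiv.ofBijective (fun i => ⟨g i, hmem i⟩) ⟨fun i j h => hg (congrArg (fun z : T' => (z : B)) h), fun x => by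
    obtain ⟨i, hi⟩ := hT' x.1 x.2
    exact ⟨i, Subtype.ext hi⟩⟩
  exact art_mem_congr hC N (rst M T') e (fun i j => hlab i j) h1

/-- the diagrams of type `D` are connected -/
theorem cmD_conn {n c : ℕ} (hc : c < n + 3) (P : Option (Fin (n + 3)) → Prop)
    (h : ∀ i j, cmD n c i j ≠ 2 → (P i → P j)) (hP : ∃ i, P i) : ∀ i, P i := by
  have hs : ∀ k : Fin (n + 3), (P (some k) ↔ P (some 0)) := by
    have hstep : ∀ k l : Fin (n + 3), k.val + 1 = l.val → (P (some l) ↔ P (some k)) := by
      intro k l hkl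
      constructor
      · refine h _ _ ?_
        rw [cmD_apply]
        simp only [lD, pl]
        rw [if_neg (by omega), if_pos (Or.inr hkl)]
        decide
      · refine h _ _ ?_
        rw [cmD_apply]
        simp only [lD, pl]
        rw [if_neg (by omega), if_pos (Or.inl hkl)]
        decide
    have hind : ∀ m : ℕ, ∀ k : Fin (n + 3), k.val = m → (P (some k) ↔ P (some 0)) := by
      intro m
      induction m with
      | zero =>
        intro k hk
        have h1 : k = 0 := Fin.ext hk
        rw [h1]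
      | succ m ih =>
        intro k hk
        exact (hstep ⟨m, by omega⟩ k hk.symm).trans (ih ⟨m, by omega⟩ rfl)
    exact fun k => hind k.val k rfl
  have hn : P none ↔ P (some ⟨c, hc⟩) := by
    constructor
    · refine h _ _ ?_
      rw [cmD_apply]
      simp only [lD]
      rw [if_pos trivial]
      decide
    · refine h _ _ ?_
      rw [cmD_apply]
      simp only [lD]
      rw [if_pos trivial]
      decide
  have h0 : P (some 0) := by
    obtain ⟨i, hi⟩ := hP
    rcases i with _ | k
    · exact (hs _).1 (hn.1 hi)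
    · exact (hs k).1 hi
  intro i
  rcases i with _ | k
  · exact hn.2 ((hs _).2 h0)
  · exact (hs k).2 h0

/-- diagrams of affine type `D` -/
def IsDt {B : Type} (M : CoxeterMatrix B) (T : Finset B) : Prop :=
  ∃ n : ℕ, ∃ e : Option (Option (Fin (n + 3))) ≃ T, ∀ x y, M (e x) (e y) = cmT n x y

theorem rem_dt (hC : Inherits C) (hE : Extension C) (hF : FreeByZ C) {B : Type} (M : CoxeterMatrix B) (T : Finset B)
    (h : IsDt M T) (ih : ∀ T' ⊂ T, 3 ≤ T'.card → IrrF M T' → C (Art (rst M T'))) : C (Art (rst M T)) := by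
  obtain ⟨n, e, he⟩ := h
  have hcard : 3 ≤ Nat.card (Option (Fin (n + 3))) := by
    rw [Nat.card_eq_fintype_card, Fintype.card_option, Fintype.card_fin]
    omega
  have h1 : C (Art (cmD n 1)) := by
    refine mem_part hC M T (cmD n 1) (fun x => e (some x)) (fun x y hxy => Option.some_injective _ (e.injective hxy))
      ⟨e none, fun x hx => ?_⟩ (fun x y => ?_) hcard (cmD_conn (by omega)) ih
    · exact Option.some_ne_none x (e.injective hx)
    · rw [he]
      rfl
  have h2 : C (Art (cmD n (n + 1))) := by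
    refine mem_part hC M T (cmD n (n + 1)) (fun x => e (Option.map some x)) (fun x y hxy => ?_)
      ⟨e (some none), fun x hx => ?_⟩ (fun x y => ?_) hcard (cmD_conn (by omega)) ih
    · exact Option.map_injective (Option.some_injective _) (e.injective hxy)
    · have h3 := e.injective hx
      rcases x with _ | x
      · exact Option.some_ne_none _ h3.symm
      · exact Option.some_ne_none x (Option.some_injective _ h3)
    · rw [he]
      rcases x with _ | x <;> rcases y with _ | y <;> rfl
  have h3 := art_cmT_mem hC hE hF n h1 h2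
  refine hC.iso _ _ (artCongr (cmT n) (rst M T) e fun x y => ?_) h3
  exact he x y

end Pool.Agent.H52.DT
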