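import Pool.Agent.H52.DT.Rem
import Pool.Agent.H10.BT.Ax

/-!
# Removing the diagrams of affine type `B`
-/

set_option autoImplicit false

namespace Pool.Agent.H52.DT

open Pool.Agent.H52.PAG Pool.Agent.H98.FJ Pool.Agent.H54.CX Pool.Agent.H10.DT Pool.Agent.H98.DT Pool.Agent.H10.BT
open Pool.Agent.H54.AR (rst rst_apply)

variable {C : (G : Type) → [Group G] → Prop}

/-- diagrams which contain a path through all vertices but one are connected -/
theorem path_conn {m : ℕ} (Q : Fin (m + 1) → Prop)
    (h : ∀ k l : Fin (m + 1), k.val + 1 = l.val → (Q l ↔ Q k)) (k : Fin (m + 1)) : Q k ↔ Q 0 := by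
  have hind : ∀ r : ℕ, ∀ k : Fin (m + 1), k.val = r → (Q k ↔ Q 0) := by
    intro r
    induction r with
    | zero =>
      intro k hk
      rw [show k = 0 from Fin.ext hk]
    | succ r ih =>
      intro k hk
      exact (h ⟨r, by omega⟩ k hk.symm).trans (ih ⟨r, by omega⟩ rfl)
  exact hind k.val k rfl

theorem cmBf_conn {m : ℕ} (P : Fin (m + 3) → Prop)
    (h : ∀ i j, cmBf m i j ≠ 2 → (P i → P j)) (hP : ∃ i, P i) : ∀ i, P i := by
  have h1 := path_conn P fun k l hkl => by
    have h2 : lB k l ≠ 2 := by
      simp only [lB]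
      split_ifs <;> omega
    have h3 : lB l k ≠ 2 := by
      simp only [lB]
      split_ifs <;> omega
    exact ⟨h l k h3, h k l h2⟩
  obtain ⟨i, hi⟩ := hP
  exact fun j => (h1 j).2 ((h1 i).1 hi)

theorem cmDf_conn {m : ℕ} (P : Option (Fin (m + 2)) → Prop)
    (h : ∀ i j, cmDf m i j ≠ 2 → (P i → P j)) (hP : ∃ i, P i) : ∀ i, P i := by
  have hs := path_conn (fun k => P (some k)) fun k l hkl => by
    have h2 : lD m (some k) (some l) ≠ 2 := by
      simp only [lD, pl]
      split_ifs <;> omega
    have h3 : lD m (some l) (some k) ≠ 2 := by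
      simp only [lD, pl]
      split_ifs <;> omega
    exact ⟨h _ _ h3, h _ _ h2⟩
  have hn : P none ↔ P (some ⟨m, by omega⟩) := by
    have h2 : lD m (none : Option (Fin (m + 2))) (some ⟨m, by omega⟩) ≠ 2 := by
      simp only [lD]
      rw [if_pos trivial]
      decide
    have h3 : lD m (some ⟨m, by omega⟩) (none : Option (Fin (m + 2))) ≠ 2 := by
      simp only [lD]
      rw [if_pos trivial]
      decide
    exact ⟨h _ _ h2, h _ _ h3⟩
  have h0 : P (some 0) := by
    obtain ⟨i, hi⟩ := hP
    rcases i with _ | k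
    · exact (hs _).1 (hn.1 hi)
    · exact (hs k).1 hi
  intro i
  rcases i with _ | k
  · exact hn.2 ((hs _).2 h0)
  · exact (hs k).2 h0

/-- diagrams of affine type `B` -/
def IsBt {B : Type} (M : CoxeterMatrix B) (T : Finset B) : Prop :=
  ∃ n : ℕ, ∃ e : Option (Fin (n + 3)) ≃ T, ∀ x y, M (e x) (e y) = cmBt n x y

theorem rem_bt (hC : Inherits C) (hBt : ∀ m, C (Art (cmBf m)) → C (Art (cmDf m)) → C (Art (cmBt m)))
    {B : Type} (M : CoxeterMatrix B) (T : Finset B)
    (h : IsBt M T) (ih : ∀ T' ⊂ T, 3 ≤ T'.card → IrrF M T' → C (Art (rst M T'))) : C (Art (rst M T)) := by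
  obtain ⟨n, e, he⟩ := h
  have h1 : C (Art (cmBf n)) := by
    refine mem_part hC M T (cmBf n) (fun x => e (some x)) (fun x y hxy => Option.some_injective _ (e.injective hxy))
      ⟨e none, fun x hx => ?_⟩ (fun x y => ?_) ?_ cmBf_conn ih
    · exact Option.some_ne_none x (e.injective hx)
    · rw [he]
      rfl
    · rw [Nat.card_eq_fintype_card, Fintype.card_fin]
      omega
  have h2 : C (Art (cmDf n)) := by
    refine mem_part hC M T (cmDf n) (fun x => e (Option.map Fin.succ x)) (fun x y hxy => ?_)
      ⟨e (some 0), fun x hx => ?_⟩ (fun x y => ?_) ?_ cmDf_conn ih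
    · exact Option.map_injective (Fin.succ_injective _) (e.injective hxy)
    · have h3 := e.injective hx
      rcases x with _ | x
      · exact Option.some_ne_none _ h3.symm
      · exact Fin.succ_ne_zero x (Option.some_injective _ h3)
    · rw [he]
      rcases x with _ | x <;> rcases y with _ | y
      · rfl
      · simp only [Option.map_none, Option.map_some, cmBt_apply, cmDf_apply, lBt, lD, Fin.val_succ]
        split_ifs <;> omega
      · simp only [Option.map_none, Option.map_some, cmBt_apply, cmDf_apply, lBt, lD, Fin.val_succ]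
        split_ifs <;> omega
      · simp only [Option.map_some, cmBt_apply, cmDf_apply, lBt, lD, lB, pl, Fin.val_succ]
        split_ifs <;> omega
    · rw [Nat.card_eq_fintype_card, Fintype.card_option, Fintype.card_fin]
      omega
  refine hC.iso _ _ (artCongr (cmBt n) (rst M T) e fun x y => ?_) (hBt n h1 h2)
  exact he x y

end Pool.Agent.H52.DT
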